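import Pool.Agent.H174.GP.StA
import Pool.Agent.H174.GP.StP
import Pool.Agent.H174.GP.StC

/-!
# GP PU: upper bound for the persistence of the geometric process
-/

open MeasureTheory ProbabilityTheory Finset Filter Topology

namespace Pool.Agent.H960.GP174

open Pool.Agent.H174.GP

lemma Icc_eq_Ioc (d : ℕ) : Finset.Icc 1 d = Finset.Ioc 0 d := by
  ext j
  simp only [Finset.mem_Icc, Finset.mem_Ioc]
  omega

lemma Cs_split (y : ℕ → ℝ) {L d k : ℕ} (hkL : k ≤ L) (hLd : L ≤ d) :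
    Cs y d k = Cs y L k + k * ∑ j ∈ Finset.Ioc L d, y j := by
  unfold Cs
  rw [Icc_eq_Ioc, Icc_eq_Ioc, ← Finset.sum_Ioc_consecutive _ (Nat.zero_le L) hLd, Finset.mul_sum]
  congr 1
  refine Finset.sum_congr rfl fun j hj => ?_
  rw [Finset.mem_Ioc] at hj
  rw [min_eq_right (by omega)]

lemma Ch_meas (L x : ℕ) : Measurable fun ω : ℕ → ℝ => Ch ω L x := by
  unfold Ch Cs
  exact Finset.measurable_fun_sum _ fun j _ =>
    ((measurable_pi_apply j).div_const _).const_mul _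

lemma Ch_mono (L x : ℕ) {ω ω' : ℕ → ℝ} (h : ω ≤ ω') : Ch ω L x ≤ Ch ω' L x := by
  unfold Ch Cs
  refine Finset.sum_le_sum fun j _ => mul_le_mul_of_nonneg_left ?_ (Nat.cast_nonneg _)
  exact div_le_div_of_nonneg_right (h j) (Nat.cast_nonneg _)

lemma Ch_dep (L x : ℕ) {ω ω' : ℕ → ℝ} (h : ∀ j ∈ Finset.Icc 1 L, ω j = ω' j) :
    Ch ω L x = Ch ω' L x := by
  unfold Ch Cs
  exact Finset.sum_congr rfl fun j hj => by simp only [h j hj]

/-- positivity on a set of times -/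
def Pos (L : ℕ) (X : Finset ℕ) : Set (ℕ → ℝ) := {ω | ∀ x ∈ X, 0 ≤ Ch ω L x}

lemma Pos_meas (L : ℕ) (X : Finset ℕ) : MeasurableSet (Pos L X) := by
  have h : Pos L X = ⋂ x ∈ X, {ω : ℕ → ℝ | 0 ≤ Ch ω L x} := by
    ext ω; simp [Pos]
  rw [h]
  exact Finset.measurableSet_biInter _ fun x _ => measurableSet_le measurable_const (Ch_meas L x)

lemma Pos_dep (L : ℕ) (X : Finset ℕ) : DepOn (Finset.Icc 1 L) (Pos L X) := by
  intro ω ω' h hω x hx
  rw [← Ch_dep L x h]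
  exact hω x hx

lemma Pos_upper (L : ℕ) (X : Finset ℕ) : IsUpperSet (Pos L X) := by
  intro ω ω' h hω x hx
  exact (hω x hx).trans (Ch_mono L x h)

/-- the chain of inequalities for the Laplace process -/
lemma core (h3 : S_shiftC) (h5 : S_harris) {c κ1 : ℝ} (hc : 0 < c)
    (h4 : ∀ a b L : ℕ, 1 ≤ a → a ≤ b → b ≤ L →
      c * ((a : ℝ) / b) ^ κ1 ≤ PP.real {ω | ∀ x ∈ Finset.Icc a b, 0 ≤ Ch ω L x})
    {e : ℝ} (he : 0 < e) (he1 : e ≤ 1) {L L2 : ℕ} (hL2 : 1 ≤ L2) (hL : L2 ≤ L) :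
    (PP.real {ω | ∀ x ∈ Finset.Icc 1 L2, -(e / 4 * Real.sqrt x) ≤ Ch ω L x}) ^ (1 + e) *
      Real.exp (-((4 / e) * ((e / 4) ^ 2 * (1 + Real.log L)))) * (c * ((L2 : ℝ) / L) ^ κ1) ≤ uu L := by
  have a1 := h3 e (e / 4) L (Finset.Icc 1 L2) (fun x => -(e / 4 * Real.sqrt x)) he he1
    (by positivity) le_rfl (hL2.trans hL) (Finset.Icc_subset_Icc le_rfl hL)
  have a2 := h4 L2 L L hL2 hL le_rfl
  have a3 := h5 (Finset.Icc 1 L) (Pos L (Finset.Icc 1 L2)) (Pos L (Finset.Icc L2 L))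
    (Pos_meas _ _) (Pos_meas _ _) (Pos_dep _ _) (Pos_dep _ _) (Pos_upper _ _) (Pos_upper _ _)
  have a4 : PP.real (Pos L (Finset.Icc 1 L2) ∩ Pos L (Finset.Icc L2 L)) ≤ uu L := by
    refine measureReal_mono ?_
    rintro ω ⟨w1, w2⟩ x hx
    rw [Finset.mem_Icc] at hx
    rcases le_total x L2 with hxl | hxl
    · exact w1 x (Finset.mem_Icc.2 ⟨hx.1, hxl⟩)
    · exact w2 x (Finset.mem_Icc.2 ⟨hxl, hx.2⟩)
  have a5 : {ω : ℕ → ℝ | ∀ x ∈ Finset.Icc 1 L2, -(e / 4 * Real.sqrt x) + e / 4 * Real.sqrt x ≤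
      Ch ω L x} = Pos L (Finset.Icc 1 L2) := by
    ext ω
    simp [Pos]
  rw [a5] at a1
  refine le_trans ?_ (a3.trans a4)
  exact mul_le_mul a1 a2 (by positivity) measureReal_nonneg

/-- powers of the logarithm are small -/
lemma ev_log (C r : ℝ) (hr : 0 < r) (n : ℕ) :
    ∀ᶠ x : ℝ in atTop, C * (Real.log x) ^ n ≤ x ^ r := by
  have h := isLittleO_log_rpow_rpow_atTop (n : ℝ) hr
  have h1 := h.bound (c := 1 / (|C| + 1)) (by positivity)
  filter_upwards [h1, Filter.eventually_gt_atTop (1 : ℝ)] with x hx hx1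
  rw [Real.rpow_natCast, Real.norm_eq_abs, Real.norm_eq_abs,
    abs_of_nonneg (Real.rpow_nonneg (by linarith : (0:ℝ) ≤ x) r)] at hx
  have h2 : C * (Real.log x) ^ n ≤ (|C| + 1) * |(Real.log x) ^ n| := by
    calc C * (Real.log x) ^ n ≤ |C * (Real.log x) ^ n| := le_abs_self _
      _ = |C| * |(Real.log x) ^ n| := abs_mul _ _
      _ ≤ (|C| + 1) * |(Real.log x) ^ n| :=
          mul_le_mul_of_nonneg_right (by linarith) (abs_nonneg _)
  refine h2.trans ?_
  have h3 : (|C| + 1) * |(Real.log x) ^ n| ≤ (|C| + 1) * (1 / (|C| + 1) * x ^ r) :=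
    mul_le_mul_of_nonneg_left hx (by positivity)
  refine h3.trans_eq ?_
  have : |C| + 1 ≠ 0 := by positivity
  field_simp

/-- the deterministic part -/
lemma det {σ t e : ℝ} {ω : ℕ → ℝ} {d L L2 : ℕ} (hσ : 0 < σ) (ht : 0 < t) (he : 0 < e)
    (hL : 1 ≤ L) (hL2 : L2 ≤ L) (hLd : L ≤ d) (hq : (L2 : ℝ) ≤ (e / 4) ^ 2 * L / (16 * t ^ 2))
    (hs : σ * L ≤ 1)
    (h1 : |∑ j ∈ Finset.Ioc L d, (geo σ ω j : ℝ)| < t / (σ * Real.sqrt L))
    (h2 : ∀ x ∈ Finset.Icc 1 L, |Cg σ ω L x - Ch ω L x / σ| < x * Real.sqrt L * t)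
    (h3 : ∀ k ∈ Finset.Icc 1 d, 0 ≤ Cg σ ω d k) :
    ∀ x ∈ Finset.Icc 1 L2, -(e / 4 * Real.sqrt x) ≤ Ch ω L x := by
  intro k hk
  rw [Finset.mem_Icc] at hk
  have hkL : k ≤ L := hk.2.trans hL2
  have hL0 : (0 : ℝ) < L := by exact_mod_cast hL
  have hk0 : (0 : ℝ) < k := by exact_mod_cast hk.1
  set r := Real.sqrt L with hr
  have hr0 : 0 < r := Real.sqrt_pos.2 hL0
  have hrr : r * r = L := Real.mul_self_sqrt hL0.le
  set w := Real.sqrt k with hw
  have hw0 : 0 < w := Real.sqrt_pos.2 hk0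
  have hww : w * w = k := Real.mul_self_sqrt hk0.le
  have e1 := Cs_split (fun j => (geo σ ω j : ℝ)) hkL hLd
  have e2 : 0 ≤ Cg σ ω d k := h3 k (Finset.mem_Icc.2 ⟨hk.1, hkL.trans hLd⟩)
  have e3 : Cg σ ω d k = Cg σ ω L k + k * ∑ j ∈ Finset.Ioc L d, (geo σ ω j : ℝ) := e1
  have e4 := (abs_lt.1 h1).2
  have e5 := (abs_lt.1 (h2 k (Finset.mem_Icc.2 ⟨hk.1, hkL⟩))).2
  -- lower bound of `Cg σ ω L k`
  have e6 : -(k * (t / (σ * r))) ≤ Cg σ ω L k := by
    have : k * ∑ j ∈ Finset.Ioc L d, (geo σ ω j : ℝ) ≤ k * (t / (σ * r)) :=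
      mul_le_mul_of_nonneg_left e4.le hk0.le
    linarith
  have e7 : Cg σ ω L k - k * r * t ≤ Ch ω L k / σ := by linarith
  have e8 : σ * (Cg σ ω L k - k * r * t) ≤ Ch ω L k := by
    rw [le_div_iff₀ hσ] at e7
    linarith
  have e9 : σ * (-(k * (t / (σ * r))) - k * r * t) ≤ Ch ω L k :=
    (mul_le_mul_of_nonneg_left (by linarith) hσ.le).trans e8
  have e10 : σ * (-(k * (t / (σ * r))) - k * r * t) = -(k * t / r + σ * k * r * t) := by
    field_simp
    ring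
  rw [e10] at e9
  -- `w ≤ (e/16) r / t`
  have hk2 : (k : ℝ) ≤ (e / 4) ^ 2 * L / (16 * t ^ 2) :=
    le_trans (by exact_mod_cast hk.2) hq
  have hwr : w ≤ e / 16 * r / t := by
    refine abs_le_of_sq_le_sq' ?_ (by positivity) |>.2
    calc w ^ 2 = k := by rw [sq, hww]
      _ ≤ (e / 4) ^ 2 * L / (16 * t ^ 2) := hk2
      _ = (e / 16 * r / t) ^ 2 := by
          rw [← hrr]; field_simp; ring
  have f1 : k * t / r ≤ e / 16 * w := by
    rw [div_le_iff₀ hr0, ← hww]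
    have : w * t ≤ e / 16 * r := by
      have := mul_le_mul_of_nonneg_right hwr ht.le
      rwa [div_mul_cancel₀ _ ht.ne'] at this
    linarith [mul_le_mul_of_nonneg_left this hw0.le]
  have f2 : σ * k * r * t ≤ e / 16 * w := by
    have g1 : w * t ≤ e / 16 * r := by
      have := mul_le_mul_of_nonneg_right hwr ht.le
      rwa [div_mul_cancel₀ _ ht.ne'] at this
    calc σ * k * r * t = (σ * r * w) * (w * t) := by rw [← hww]; ring
      _ ≤ (σ * r * w) * (e / 16 * r) := mul_le_mul_of_nonneg_left g1 (by positivity)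
      _ = (σ * L) * (e / 16 * w) := by rw [← hrr]; ring
      _ ≤ 1 * (e / 16 * w) := mul_le_mul_of_nonneg_right hs (by positivity)
      _ = e / 16 * w := one_mul _
  have f3 : 0 < e * w := by positivity
  linarith


theorem gp_pu (h1 : S_contam) (h2 : S_float) (h3 : S_shiftC) (h4 : S_step) (h5 : S_harris)
    (_h6 : S_Tq) : Pool.Agent.H174.GP.S_PU := by
  intro θ s1 s2 ε hθ hT hs1 hs2 hε
  obtain ⟨Cc, hCc, h1⟩ := h1 s2 hs2
  obtain ⟨c, hc, κ1, hκ1, -, -, h4b, h4c, -⟩ := h4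
  -- the parameter `e`
  obtain ⟨e, he, he2, he3⟩ : ∃ e : ℝ, 0 < e ∧ e ≤ 1 / 2 ∧ e * (2 * θ + 4) ≤ ε / 2 := by
    refine ⟨min (1 / 2) (ε / (4 * θ + 8)), lt_min (by norm_num) (by positivity), min_le_left _ _, ?_⟩
    have h : min (1 / 2) (ε / (4 * θ + 8)) * (2 * θ + 4) ≤ ε / (4 * θ + 8) * (2 * θ + 4) :=
      mul_le_mul_of_nonneg_right (min_le_right _ _) (by positivity)
    refine h.trans_eq ?_
    have : 4 * θ + 8 ≠ 0 := by positivity
    field_simp
    ring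
  have he1 : e ≤ 1 := by linarith
  have he4 : 0 < 1 - e := by linarith
  have tD : Tendsto (fun d : ℕ => (d : ℝ)) atTop atTop := tendsto_natCast_atTop_atTop
  have tL : Tendsto (fun d : ℕ => ⌊(d : ℝ) ^ (1 - e)⌋₊) atTop atTop :=
    tendsto_nat_floor_atTop.comp ((tendsto_rpow_atTop he4).comp tD)
  -- the exponent
  have E2 : ∀ᶠ L : ℕ in atTop, uu L ≤ (L : ℝ) ^ (-θ + e) := by
    have hT1 := hT.eventually (lt_mem_nhds (show θ - e < θ by linarith))
    filter_upwards [hT1, eventually_ge_atTop 2] with L hL1 hL2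
    have hL3 : (1 : ℝ) < L := by exact_mod_cast hL2
    have hlog : 0 < Real.log L := Real.log_pos hL3
    have hu : 0 < uu L :=
      lt_of_lt_of_le (mul_pos hc (Real.rpow_pos_of_pos (by linarith) _)) (h4c L (by omega))
    rw [lt_div_iff₀ hlog] at hL1
    rw [Real.rpow_def_of_pos (by linarith : (0:ℝ) < L), ← Real.log_le_iff_le_exp hu]
    linarith
  -- eventual conditions
  have A0 := tD.eventually (eventually_ge_atTop (Real.exp 1))
  have A1 := tD.eventually ((tendsto_rpow_atTop he).eventually_ge_atTop s2)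
  have A2 := tL.eventually E2
  have A3 := tD.eventually (ev_log (32 / (e / 4) ^ 2) (1 - e) he4 4)
  have A4 := tD.eventually (ev_log (512 / e ^ 2) (e / κ1) (by positivity) 4)
  have A5 := tD.eventually ((tendsto_rpow_atTop he).eventually_ge_atTop (3 * 2 ^ θ / c))
  have A6 := tD.eventually ((tendsto_rpow_atTop (show 0 < ε / 2 by positivity)).eventually_ge_atTop 3)
  have A7 := tD.eventually (Real.tendsto_log_atTop.eventually_ge_atTop (4 * (θ + 2)))
  have A8 := tD.eventually (eventually_ge_atTop (3 * Cc + 6))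
  have A9 := tL.eventually (eventually_ge_atTop 1)
  obtain ⟨d0, hd0⟩ := eventually_atTop.1 (A0.and (A1.and (A2.and (A3.and (A4.and (A5.and (A6.and
    (A7.and (A8.and A9)))))))))
  refine ⟨d0, fun d hd σ hσ hσ1 hσ2 => ?_⟩
  obtain ⟨B0, B1, B2, B3, B4, B5, B6, B7, B8, B9⟩ := hd0 d hd
  clear A0 A1 A2 A3 A4 A5 A6 A7 A8 A9 hd0
  set D : ℝ := (d : ℝ) with hD
  set L : ℕ := ⌊D ^ (1 - e)⌋₊ with hL
  have hD1 : 1 < D := by
    have : (1 : ℝ) < Real.exp 1 := by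
      have := Real.add_one_lt_exp (one_ne_zero : (1:ℝ) ≠ 0)
      linarith
    linarith
  have hD0 : 0 < D := by linarith
  set lg := Real.log D with hlg
  have hlg1 : 1 ≤ lg := by
    rw [hlg, Real.le_log_iff_exp_le hD0]; exact B0
  set t : ℝ := lg ^ 2 with ht
  have ht0 : 0 < t := by positivity
  have ht1 : 1 ≤ t := one_le_pow₀ hlg1
  -- `L`
  have hP0 : 0 ≤ D ^ (1 - e) := Real.rpow_nonneg hD0.le _
  have hLle : (L : ℝ) ≤ D ^ (1 - e) := Nat.floor_le hP0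
  have hL1 : (1 : ℝ) ≤ L := by exact_mod_cast B9
  have hLge : D ^ (1 - e) / 2 ≤ L := by
    have : D ^ (1 - e) < L + 1 := Nat.lt_floor_add_one _
    linarith
  have hPD : D ^ (1 - e) ≤ D := by
    calc D ^ (1 - e) ≤ D ^ (1 : ℝ) := Real.rpow_le_rpow_of_exponent_le hD1.le (by linarith)
      _ = D := Real.rpow_one D
  have hLD : (L : ℝ) ≤ D := hLle.trans hPD
  have hLd : L ≤ d := by
    have h : (L : ℝ) ≤ (d : ℝ) := hLD
    exact_mod_cast h
  -- `L2`
  set q : ℝ := (e / 4) ^ 2 * L / (16 * t ^ 2) with hq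
  have hq1 : 1 ≤ q := by
    rw [hq, le_div_iff₀ (by positivity), one_mul]
    have h : 32 / (e / 4) ^ 2 * lg ^ 4 ≤ D ^ (1 - e) := B3
    rw [div_mul_eq_mul_div, div_le_iff₀ (by positivity)] at h
    have h' : (e / 4) ^ 2 * (D ^ (1 - e) / 2) ≤ (e / 4) ^ 2 * L :=
      mul_le_mul_of_nonneg_left hLge (by positivity)
    have h'' : t ^ 2 = lg ^ 4 := by rw [ht]; ring
    rw [h'']
    linarith
  set L2 : ℕ := ⌊q⌋₊ with hL2
  have hL2q : (L2 : ℝ) ≤ q := Nat.floor_le (by linarith)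
  have hL21 : 1 ≤ L2 := by
    rw [hL2]
    exact Nat.le_floor (by exact_mod_cast hq1)
  have hL2g : q / 2 ≤ L2 := by
    have h : q < L2 + 1 := Nat.lt_floor_add_one _
    have h' : (1 : ℝ) ≤ L2 := by exact_mod_cast hL21
    linarith
  have hqL : q ≤ L := by
    rw [hq, div_le_iff₀ (by positivity)]
    have h : (e / 4) ^ 2 ≤ 1 := pow_le_one₀ (by positivity) (by linarith)
    have h' : 1 ≤ t ^ 2 := one_le_pow₀ ht1
    linarith [mul_le_mul_of_nonneg_right h (show (0:ℝ) ≤ L by linarith),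
      mul_le_mul_of_nonneg_left h' (show (0:ℝ) ≤ L by linarith)]
  have hL2L : L2 ≤ L := by
    have : (L2 : ℝ) ≤ L := hL2q.trans hqL
    exact_mod_cast this
  have hsL : σ * L ≤ 1 := by
    have h1' : σ ≤ s2 / D := by rw [le_div_iff₀ hD0]; exact hσ2
    have h2' : D ^ (1 - e) = D / D ^ e := by
      rw [Real.rpow_sub hD0, Real.rpow_one]
    have h3' : 0 < D ^ e := Real.rpow_pos_of_pos hD0 _
    calc σ * L ≤ s2 / D * (D / D ^ e) := by
          rw [← h2']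
          exact mul_le_mul h1' hLle (by linarith) (by positivity)
      _ = s2 / D ^ e := by field_simp
      _ ≤ 1 := by rw [div_le_one h3']; exact B1
  -- the event
  set Q : ℝ := PP.real {ω | ∀ x ∈ Finset.Icc 1 L2, -(e / 4 * Real.sqrt x) ≤ Ch ω L x} with hQ
  have hQ0 : 0 ≤ Q := measureReal_nonneg
  have P1 : PP.real {ω | ∀ k ∈ Finset.Icc 1 d, 0 ≤ Cg σ ω d k} ≤
      Q + (Cc * Real.exp (-(t / 4)) + 2 * L * Real.exp (-(t ^ 2 / 2))) := by
    have c1 := h1 σ d L t hσ B9 hσ2 ht0.le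
    have c2 := h2 σ L t hσ B9 ht0.le
    have c3 : {ω : ℕ → ℝ | ∀ k ∈ Finset.Icc 1 d, 0 ≤ Cg σ ω d k} ⊆
        {ω | ∀ x ∈ Finset.Icc 1 L2, -(e / 4 * Real.sqrt x) ≤ Ch ω L x} ∪
        ({ω | t / (σ * Real.sqrt L) ≤ |∑ j ∈ Finset.Ioc L d, (geo σ ω j : ℝ)|} ∪
        {ω | ∃ x ∈ Finset.Icc 1 L, x * Real.sqrt L * t ≤ |Cg σ ω L x - Ch ω L x / σ|}) := by
      intro ω hω
      by_cases g1 : t / (σ * Real.sqrt L) ≤ |∑ j ∈ Finset.Ioc L d, (geo σ ω j : ℝ)|
      · exact Or.inr (Or.inl g1)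
      by_cases g2 : ∃ x ∈ Finset.Icc 1 L, x * Real.sqrt L * t ≤ |Cg σ ω L x - Ch ω L x / σ|
      · exact Or.inr (Or.inr g2)
      left
      push Not at g1 g2
      exact det hσ ht0 he B9 hL2L hLd hL2q hsL g1 g2 hω
    refine (measureReal_mono c3).trans ?_
    refine (measureReal_union_le _ _).trans (add_le_add le_rfl ?_)
    exact (measureReal_union_le _ _).trans (add_le_add c1 c2)
  -- the bound of `Q`
  have k0 := core h3 h5 hc h4b he he1 hL21 hL2L
  rw [← hQ] at k0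
  have hL0 : (0 : ℝ) < L := by linarith
  have hL20 : (0 : ℝ) < L2 := by exact_mod_cast hL21
  have k1 : Real.exp (-((4 / e) * ((e / 4) ^ 2 * (1 + Real.log L)))) =
      (Real.exp (e / 4) * (L : ℝ) ^ (e / 4))⁻¹ := by
    rw [Real.rpow_def_of_pos hL0, ← Real.exp_add, ← Real.exp_neg]
    congr 1
    field_simp
  have k2 : ((L2 : ℝ) / L) ^ κ1 = (((L : ℝ) / L2) ^ κ1)⁻¹ := by
    rw [← Real.inv_rpow (by positivity), inv_div]
  have k3 : ((L : ℝ) / L2) ^ κ1 ≤ D ^ e := by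
    have m1 : (L : ℝ) / L2 ≤ D ^ (e / κ1) := by
      refine le_trans ?_ B4
      rw [div_le_iff₀ hL20]
      have : (512 / e ^ 2 * lg ^ 4) * (q / 2) = L := by
        rw [hq, ht]
        have : lg ≠ 0 := by positivity
        field_simp
        ring
      calc (L : ℝ) = (512 / e ^ 2 * lg ^ 4) * (q / 2) := this.symm
        _ ≤ (512 / e ^ 2 * lg ^ 4) * L2 := mul_le_mul_of_nonneg_left hL2g (by positivity)
    calc ((L : ℝ) / L2) ^ κ1 ≤ (D ^ (e / κ1)) ^ κ1 :=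
          Real.rpow_le_rpow (by positivity) m1 hκ1.le
      _ = D ^ e := by
          rw [← Real.rpow_mul hD0.le, div_mul_cancel₀ _ hκ1.ne']
  have k4 : Real.exp (e / 4) ≤ 3 := by
    calc Real.exp (e / 4) ≤ Real.exp 1 := Real.exp_le_exp.2 (by linarith)
      _ ≤ 3 := by have := Real.exp_one_lt_d9; linarith
  have k5 : (L : ℝ) ^ (e / 4) ≤ D ^ e := by
    calc (L : ℝ) ^ (e / 4) ≤ D ^ (e / 4) := Real.rpow_le_rpow (by linarith) hLD (by positivity)
      _ ≤ D ^ e := Real.rpow_le_rpow_of_exponent_le hD1.le (by linarith)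
  have k6 : uu L ≤ 2 ^ θ * D ^ (-(θ * (1 - e))) * D ^ e := by
    refine B2.trans ?_
    rw [Real.rpow_add hL0]
    refine mul_le_mul ?_ (Real.rpow_le_rpow (by linarith) hLD he.le) (by positivity)
      (by positivity)
    rw [Real.rpow_neg (by linarith), Real.rpow_neg hD0.le, mul_comm θ, Real.rpow_mul hD0.le]
    rw [← div_eq_mul_inv, ← Real.div_rpow (by norm_num) hP0, ← Real.inv_rpow (by linarith)]
    refine Real.rpow_le_rpow (by positivity) ?_ hθ
    rw [inv_le_comm₀ (by linarith) (by positivity), inv_div]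
    exact hLge
  have k7 : Q ^ (1 + e) ≤ D ^ (4 * e - θ * (1 - e)) := by
    rw [k1, k2] at k0
    set a := Real.exp (e / 4) * (L : ℝ) ^ (e / 4) with ha
    set b := ((L : ℝ) / L2) ^ κ1 with hb
    have ha0 : 0 < a := by positivity
    have hb0 : 0 < b := by positivity
    have m1 : Q ^ (1 + e) ≤ uu L * a * b / c := by
      have : Q ^ (1 + e) * a⁻¹ * (c * b⁻¹) = Q ^ (1 + e) * c / (a * b) := by
        field_simp
      rw [this, div_le_iff₀ (by positivity)] at k0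
      rw [le_div_iff₀ hc]
      linarith
    have m2 : a ≤ 3 * D ^ e := mul_le_mul k4 k5 (by positivity) (by norm_num)
    calc Q ^ (1 + e) ≤ uu L * a * b / c := m1
      _ ≤ (2 ^ θ * D ^ (-(θ * (1 - e))) * D ^ e) * (3 * D ^ e) * D ^ e / c := by
          refine div_le_div_of_nonneg_right ?_ hc.le
          refine mul_le_mul (mul_le_mul k6 m2 ha0.le (by positivity)) k3 hb0.le (by positivity)
      _ = (3 * 2 ^ θ / c) * (D ^ (-(θ * (1 - e))) * D ^ e * D ^ e * D ^ e) := by ring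
      _ ≤ D ^ e * (D ^ (-(θ * (1 - e))) * D ^ e * D ^ e * D ^ e) :=
          mul_le_mul_of_nonneg_right B5 (by positivity)
      _ = D ^ (4 * e - θ * (1 - e)) := by
          rw [← Real.rpow_add hD0, ← Real.rpow_add hD0, ← Real.rpow_add hD0, ← Real.rpow_add hD0]
          congr 1
          ring
  have k8 : Q ≤ D ^ (-θ + ε / 2) := by
    have m1 : Q ^ (1 + e) ≤ (D ^ (-θ + ε / 2)) ^ (1 + e) := by
      refine k7.trans ?_
      rw [← Real.rpow_mul hD0.le]
      refine Real.rpow_le_rpow_of_exponent_le hD1.le ?_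
      linarith [mul_pos hε he]
    exact (Real.rpow_le_rpow_iff hQ0 (by positivity) (by linarith)).1 m1
  -- the exceptional probabilities
  have w0 : Real.exp (-(t / 4)) ≤ D ^ (-θ) * D ^ (-2 : ℝ) := by
    rw [← Real.rpow_add hD0, Real.rpow_def_of_pos hD0]
    refine Real.exp_le_exp.2 ?_
    rw [ht]
    linarith [mul_le_mul_of_nonneg_left B7 (show 0 ≤ lg by linarith)]
  have w1 : Real.exp (-(t ^ 2 / 2)) ≤ D ^ (-θ) * D ^ (-2 : ℝ) := by
    refine le_trans (Real.exp_le_exp.2 ?_) w0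
    linarith [mul_le_mul_of_nonneg_left ht1 ht0.le]
  have w2 : D ^ (-2 : ℝ) = 1 / (D * D) := by
    rw [Real.rpow_neg hD0.le, one_div]
    congr 1
    rw [← sq]
    exact_mod_cast Real.rpow_natCast D 2
  have wθ : 0 < D ^ (-θ) := Real.rpow_pos_of_pos hD0 _
  have w3 : Cc * Real.exp (-(t / 4)) + 2 * L * Real.exp (-(t ^ 2 / 2)) ≤ D ^ (-θ) * (2 / 3) := by
    have m1 : Cc * Real.exp (-(t / 4)) ≤ Cc * (D ^ (-θ) * (1 / (D * D))) := by
      rw [← w2]; exact mul_le_mul_of_nonneg_left w0 hCc.le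
    have m2 : 2 * L * Real.exp (-(t ^ 2 / 2)) ≤ 2 * D * (D ^ (-θ) * (1 / (D * D))) := by
      rw [← w2]
      exact mul_le_mul (by linarith) w1 (Real.exp_pos _).le (by positivity)
    have m3 : Cc * (1 / (D * D)) ≤ 1 / 3 := by
      rw [mul_one_div, div_le_iff₀ (by positivity)]
      linarith [mul_le_mul_of_nonneg_left hD1.le hD0.le]
    have m4 : 2 * D * (1 / (D * D)) ≤ 1 / 3 := by
      rw [mul_one_div, div_le_iff₀ (by positivity)]
      linarith [mul_le_mul_of_nonneg_left (show 6 ≤ D by linarith) hD0.le]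
    calc Cc * Real.exp (-(t / 4)) + 2 * L * Real.exp (-(t ^ 2 / 2)) ≤
          D ^ (-θ) * (Cc * (1 / (D * D)) + 2 * D * (1 / (D * D))) := by
            refine (add_le_add m1 m2).trans_eq ?_
            ring
      _ ≤ D ^ (-θ) * (2 / 3) := mul_le_mul_of_nonneg_left (by linarith) wθ.le
  have w4 : D ^ (-θ + ε) = D ^ (-θ + ε / 2) * D ^ (ε / 2) := by
    rw [← Real.rpow_add hD0]
    congr 1
    ring
  have w5 : D ^ (-θ) ≤ D ^ (-θ + ε / 2) :=
    Real.rpow_le_rpow_of_exponent_le hD1.le (by linarith)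
  have w6 : 0 < D ^ (-θ + ε / 2) := Real.rpow_pos_of_pos hD0 _
  refine P1.trans ?_
  rw [w4]
  linarith [mul_le_mul_of_nonneg_left B6 w6.le]

end Pool.Agent.H960.GP174
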